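import Pool.Agent.H984Q.Defs
import Pool.Agent.H492E.E1
import Pool.Agent.H492E.E2
import Pool.Agent.H492E.E4b
import Pool.Agent.H492E.E4c

/-! The strip walk of H492E is the plane path before it leaves the strip. -/

namespace Pool.Agent.H984Q

open Pool.Agent.H988R2.Perc hiding X
open Pool.Agent.H31C Pool.Agent.H492E Finset MeasureTheory

theorem path_succ (ω : Conf) (n : ℕ) : path ω (n + 1) = pstep ω (path ω n) := by
  unfold path
  rw [Function.iterate_succ_apply']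

/-- translation of the configuration -/
def tr (k : ℤ) (ω : Conf) : Conf := fun e => ω (e.1 + (k + 1), e.2.1 - k, e.2.2)

/-- translation of the state -/
def sh (k : ℤ) (s : (ℤ × ℤ) × Fin 4) : (ℤ × ℤ) × Fin 4 := ((s.1.1 + (k + 1), s.1.2 - k), s.2)

theorem open_tr (k : ℤ) (ω : Conf) (x y : ℤ × ℤ) :
    OpenAdj ω (x.1 + (k + 1), x.2 - k) (y.1 + (k + 1), y.2 - k) ↔ OpenAdj (tr k ω) x y := by
  obtain ⟨x1, x2⟩ := x
  obtain ⟨y1, y2⟩ := y
  unfold OpenAdj tr
  simp only [Prod.mk.injEq]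
  constructor
  · rintro (⟨⟨h1, h2⟩, h3⟩ | ⟨⟨h1, h2⟩, h3⟩ | ⟨⟨h1, h2⟩, h3⟩ | ⟨⟨h1, h2⟩, h3⟩)
    · exact Or.inl ⟨⟨by omega, by omega⟩, h3⟩
    · exact Or.inr (Or.inl ⟨⟨by omega, by omega⟩, h3⟩)
    · exact Or.inr (Or.inr (Or.inl ⟨⟨by omega, by omega⟩, h3⟩))
    · exact Or.inr (Or.inr (Or.inr ⟨⟨by omega, by omega⟩, h3⟩))
  · rintro (⟨⟨h1, h2⟩, h3⟩ | ⟨⟨h1, h2⟩, h3⟩ | ⟨⟨h1, h2⟩, h3⟩ | ⟨⟨h1, h2⟩, h3⟩)
    · exact Or.inl ⟨⟨by omega, by omega⟩, h3⟩
    · exact Or.inr (Or.inl ⟨⟨by omega, by omega⟩, h3⟩)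
    · exact Or.inr (Or.inr (Or.inl ⟨⟨by omega, by omega⟩, h3⟩))
    · exact Or.inr (Or.inr (Or.inr ⟨⟨by omega, by omega⟩, h3⟩))

/-- one step -/
theorem step_eq (k b : ℕ) (ω : Conf) (s : (ℤ × ℤ) × Fin 4)
    (h0 : 0 ≤ vcol s + (2 * k + 1)) (h1 : vcol s + (2 * k + 1) < 2 * k + 1 + b + 1)
    (h2 : vcol s + (2 * k + 1) = 0 → s.2 = 3) :
    step (2 * k + 1) (2 * k + 1 + b + 1) ω (sh k s) = sh k (pstep (tr k ω) s) := by
  classical
  obtain ⟨⟨u, v⟩, d⟩ := s
  unfold vcol at h0 h1 h2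
  simp only at h0 h1 h2
  have hbank : (Bank (2 * k + 1) (sh k ((u, v), d)).1 ∧ (sh k ((u, v), d)).2 = 0) ↔
      (Bank0 (u, v) ∧ d = 0) := by
    unfold Bank Bank0 sh
    simp only
    push_cast
    constructor
    · rintro ⟨⟨h3, h4⟩, h5⟩
      exact ⟨⟨by omega, by omega⟩, h5⟩
    · rintro ⟨⟨h3, h4⟩, h5⟩
      exact ⟨⟨by omega, by omega⟩, h5⟩
  have hv : (sh k ((u, v), d)).1 + vec (sh k ((u, v), d)).2 =
      (((u, v) + vec d).1 + ((k : ℤ) + 1), ((u, v) + vec d).2 - k) := by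
    unfold sh
    simp only
    ext
    · simp only [Prod.fst_add]; ring
    · simp only [Prod.snd_add]; ring
  have hadj : SlitAdj (2 * k + 1) (2 * k + 1 + b + 1) ω (sh k ((u, v), d)).1
      ((sh k ((u, v), d)).1 + vec (sh k ((u, v), d)).2) ↔
      (OpenAdj (tr k ω) (u, v) ((u, v) + vec d) ∧ ¬ Cut (u, v) ((u, v) + vec d)) := by
    rw [hv]
    unfold SlitAdj
    have ho := open_tr k ω (u, v) ((u, v) + vec d)
    have hx : (sh k ((u, v), d)).1 = (((u, v) : ℤ × ℤ).1 + ((k : ℤ) + 1), ((u, v) : ℤ × ℤ).2 - k) := rfl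
    rw [hx, ho]
    generalize ho' : OpenAdj (tr k ω) (u, v) ((u, v) + vec d) = P
    unfold Cut
    have hd : d = 0 ∨ d = 1 ∨ d = 2 ∨ d = 3 := by fin_cases d <;> simp
    clear ho ho' hx hv hbank
    rcases hd with rfl | rfl | rfl | rfl
    · have h2' : u - v + (2 * k + 1) ≠ 0 := fun h => absurd (h2 h) (by decide)
      simp only [vec, Prod.mk_add_mk, add_zero]
      push_cast
      constructor
      · rintro ⟨h3, h4, h5, h6, h7, h8⟩
        refine ⟨h3, fun h9 => h8 ?_⟩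
        omega
      · rintro ⟨h3, h8⟩
        refine ⟨h3, by omega, by omega, by omega, by omega, fun h9 => h8 ?_⟩
        omega
    · have h2' : u - v + (2 * k + 1) ≠ 0 := fun h => absurd (h2 h) (by decide)
      simp only [vec, Prod.mk_add_mk, add_zero]
      push_cast
      constructor
      · rintro ⟨h3, h4, h5, h6, h7, h8⟩
        refine ⟨h3, fun h9 => h8 ?_⟩
        omega
      · rintro ⟨h3, h8⟩
        refine ⟨h3, by omega, by omega, by omega, by omega, fun h9 => h8 ?_⟩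
        omega
    · have h2' : u - v + (2 * k + 1) ≠ 0 := fun h => absurd (h2 h) (by decide)
      simp only [vec, Prod.mk_add_mk, add_zero]
      push_cast
      constructor
      · rintro ⟨h3, h4, h5, h6, h7, h8⟩
        refine ⟨h3, fun h9 => h8 ?_⟩
        omega
      · rintro ⟨h3, h8⟩
        refine ⟨h3, by omega, by omega, by omega, by omega, fun h9 => h8 ?_⟩
        omega
    · simp only [vec, Prod.mk_add_mk, add_zero]
      push_cast
      constructor
      · rintro ⟨h3, h4, h5, h6, h7, h8⟩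
        refine ⟨h3, fun h9 => h8 ?_⟩
        omega
      · rintro ⟨h3, h8⟩
        refine ⟨h3, by omega, by omega, by omega, by omega, fun h9 => h8 ?_⟩
        omega
  unfold step pstep
  by_cases c1 : Bank0 (u, v) ∧ d = 0
  · rw [if_pos (hbank.2 c1), if_pos c1]
    unfold sh
    simp only [Prod.mk_add_mk]
    ext
    · simp only; ring
    · simp only; ring
    · rfl
  · rw [if_neg (fun h => c1 (hbank.1 h)), if_neg c1]
    by_cases c2 : OpenAdj (tr k ω) (u, v) ((u, v) + vec d) ∧ ¬ Cut (u, v) ((u, v) + vec d)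
    · rw [if_pos (hadj.2 c2), if_pos c2, hv]
      rfl
    · rw [if_neg (fun h => c2 (hadj.1 h)), if_neg c2]
      rfl

theorem start_eq (k : ℕ) : start (2 * k + 1) = sh k ((0, 0), 3) := by
  unfold start sh
  have e1 : ((((2 * k + 1 : ℕ) : ℤ) + 1) / 2) = k + 1 := by push_cast; omega
  have e2 : ((1 - ((2 * k + 1 : ℕ) : ℤ)) / 2) = -k := by push_cast; omega
  rw [e1, e2]
  simp

/-- before the exit the strip walk is the plane path -/
theorem walk_eq (k b : ℕ) (K : ℤ) (hK : 2 * K = ((2 * k + 1 : ℕ) : ℤ) + b + 2) (ω : Conf) (n : ℕ)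
    (hL : ∀ m < n, ¬ hitL (walk (2 * k + 1) b ω m))
    (hR : ∀ m < n, ¬ hitR (2 * k + 1) b (walk (2 * k + 1) b ω m)) :
    walk (2 * k + 1) b ω n = sh k (path (tr k ω) n) ∧
      E2.Inv (2 * k + 1) b K ω (walk (2 * k + 1) b ω n) := by
  induction n with
  | zero =>
    refine ⟨?_, ?_⟩
    · show start (2 * k + 1) = _
      rw [start_eq]
      rfl
    · exact E2.inv_start ⟨k, rfl⟩ hK ω
  | succ n ih =>
    obtain ⟨h1, h2⟩ := ih (fun m hm => hL m (by omega)) (fun m hm => hR m (by omega))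
    have h3 := hL n (by omega)
    have h4 := hR n (by omega)
    have h5 := E2.inv_step ⟨k, rfl⟩ hK h2 h3 h4
    refine ⟨?_, ?_⟩
    · rw [walk_succ, path_succ, h1]
      obtain ⟨hA, hA', hB, -, -⟩ := h2
      rw [h1] at h3 h4 hA hA' hB
      generalize path (tr k ω) n = s at h3 h4 hA hA' hB
      obtain ⟨⟨u, v⟩, d⟩ := s
      unfold hitL sh at h3
      unfold hitR sh at h4
      unfold sh at hA hA' hB
      simp only at h3 h4 hA hA' hB
      push_cast at h3 h4 hA hA' hB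
      apply step_eq
      · unfold vcol; simp only; omega
      · unfold vcol; simp only; omega
      · unfold vcol
        simp only
        intro h6
        rcases hB (by omega) with h | h
        · exact absurd ⟨by omega, h⟩ h3
        · exact h
    · rw [walk_succ]
      exact h5

/-- columns of the strip walk -/
theorem hitL_fcol (k : ℕ) (s : (ℤ × ℤ) × Fin 4) (h : hitL (sh k s)) :
    fcol s = -((2 * k + 1 : ℕ) : ℤ) := by
  obtain ⟨⟨u, v⟩, d⟩ := s
  obtain ⟨h1, h2⟩ := h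
  unfold sh at h1 h2
  simp only at h1 h2
  subst h2
  unfold fcol
  simp only
  push_cast
  omega

theorem hitR_vcol (k b : ℕ) (s : (ℤ × ℤ) × Fin 4) :
    hitR (2 * k + 1) b (sh k s) ↔ vcol s = b + 1 := by
  obtain ⟨⟨u, v⟩, d⟩ := s
  unfold hitR vcol sh
  simp only
  push_cast
  constructor
  · intro h; omega
  · intro h; omega

theorem fcol_vcol (s : (ℤ × ℤ) × Fin 4) : vcol s - 1 ≤ fcol s ∧ fcol s ≤ vcol s + 1 := by
  obtain ⟨⟨u, v⟩, d⟩ := s
  have hd : d = 0 ∨ d = 1 ∨ d = 2 ∨ d = 3 := by fin_cases d <;> simp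
  unfold fcol vcol
  rcases hd with rfl | rfl | rfl | rfl <;> simp only <;> constructor <;> omega

theorem right_sub (k b : ℕ) (hb : Odd b) (ω : Conf) (h : tr k ω ∈ RightFirst (2 * k + 1) b) :
    ω ∈ Cross (2 * k + 1) b := by
  classical
  apply E1_right (2 * k + 1) b ⟨k, rfl⟩ hb
  obtain ⟨n0, h0, h0'⟩ := h
  obtain ⟨l, hl⟩ := hb
  have hK : 2 * ((k : ℤ) + l + 2) = ((2 * k + 1 : ℕ) : ℤ) + b + 2 := by
    subst hl; push_cast; ring
  have hex : ∃ n, (b : ℤ) + 1 ≤ vcol (path (tr k ω) n) := ⟨n0, h0⟩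
  set n := Nat.find hex with hn
  have hn1 : (b : ℤ) + 1 ≤ vcol (path (tr k ω) n) := Nat.find_spec hex
  have hn2 : ∀ m < n, ¬ (b : ℤ) + 1 ≤ vcol (path (tr k ω) m) := fun m hm => Nat.find_min hex hm
  have hn3 : n ≤ n0 := Nat.find_min' hex h0
  have key : ∀ j ≤ n, (∀ m < j, ¬ hitL (walk (2 * k + 1) b ω m)) ∧
      (∀ m < j, ¬ hitR (2 * k + 1) b (walk (2 * k + 1) b ω m)) := by
    intro j
    induction j with
    | zero => intro _; exact ⟨fun m hm => absurd hm (by omega), fun m hm => absurd hm (by omega)⟩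
    | succ j ih =>
      intro hj
      obtain ⟨h1, h2⟩ := ih (by omega)
      obtain ⟨h3, -⟩ := walk_eq k b _ hK ω j h1 h2
      constructor
      · intro m hm
        rcases Nat.lt_succ_iff_lt_or_eq.1 hm with h | h
        · exact h1 m h
        · subst h
          rw [h3]
          intro h4
          have h5 := hitL_fcol k _ h4
          have h6 := h0' m (by omega)
          omega
      · intro m hm
        rcases Nat.lt_succ_iff_lt_or_eq.1 hm with h | h
        · exact h2 m h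
        · subst h
          rw [h3, hitR_vcol]
          intro h4
          exact hn2 m (by omega) (by omega)
  obtain ⟨h1, h2⟩ := key n le_rfl
  obtain ⟨h3, h4⟩ := walk_eq k b _ hK ω n h1 h2
  refine ⟨n, ?_, h1⟩
  rw [h3, hitR_vcol]
  have h5 := h4.2.1
  rw [h3] at h5
  generalize path (tr k ω) n = s at hn1 h5
  obtain ⟨⟨u, v⟩, d⟩ := s
  unfold sh at h5
  unfold vcol at hn1 ⊢
  simp only at h5 hn1 ⊢
  push_cast at h5
  omega

theorem left_sub (k b : ℕ) (hb : Odd b) (ω : Conf) (h : tr k ω ∈ LeftFirst (2 * k + 1) b) :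
    mir (((2 * k + 1 + b + 2) / 2 : ℕ) : ℤ) ω ∈ Cross b (2 * k + 1) := by
  classical
  obtain ⟨n0, h0, h0'⟩ := h
  have hK : 2 * (((2 * k + 1 + b + 2) / 2 : ℕ) : ℤ) = ((2 * k + 1 : ℕ) : ℤ) + b + 2 := by
    obtain ⟨l, rfl⟩ := hb
    omega
  set K : ℤ := (((2 * k + 1 + b + 2) / 2 : ℕ) : ℤ) with hKdef
  have hex : ∃ n, fcol (path (tr k ω) n) ≤ -((2 * k + 1 : ℕ) : ℤ) := ⟨n0, h0⟩
  set n := Nat.find hex with hn
  have hn1 : fcol (path (tr k ω) n) ≤ -((2 * k + 1 : ℕ) : ℤ) := Nat.find_spec hex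
  have hn2 : ∀ m < n, ¬ fcol (path (tr k ω) m) ≤ -((2 * k + 1 : ℕ) : ℤ) :=
    fun m hm => Nat.find_min hex hm
  have hn3 : n ≤ n0 := Nat.find_min' hex h0
  have key : ∀ j ≤ n, (∀ m < j, ¬ hitL (walk (2 * k + 1) b ω m)) ∧
      (∀ m < j, ¬ hitR (2 * k + 1) b (walk (2 * k + 1) b ω m)) := by
    intro j
    induction j with
    | zero => intro _; exact ⟨fun m hm => absurd hm (by omega), fun m hm => absurd hm (by omega)⟩
    | succ j ih =>
      intro hj
      obtain ⟨h1, h2⟩ := ih (by omega)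
      obtain ⟨h3, -⟩ := walk_eq k b _ hK ω j h1 h2
      constructor
      · intro m hm
        rcases Nat.lt_succ_iff_lt_or_eq.1 hm with h | h
        · exact h1 m h
        · subst h
          rw [h3]
          intro h4
          exact hn2 m (by omega) (le_of_eq (hitL_fcol k _ h4))
      · intro m hm
        rcases Nat.lt_succ_iff_lt_or_eq.1 hm with h | h
        · exact h2 m h
        · subst h
          rw [h3, hitR_vcol]
          intro h4
          have h6 := h0' m (by omega)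
          omega
  obtain ⟨h1, h2⟩ := key n le_rfl
  obtain ⟨h3, h4⟩ := walk_eq k b _ hK ω n h1 h2
  rw [h3] at h4
  generalize path (tr k ω) n = s at hn1 h4
  obtain ⟨⟨u, v⟩, d⟩ := s
  obtain ⟨hA, hA', hB, -, hD⟩ := h4
  unfold sh at hA hA' hB hD
  simp only at hA hA' hB hD
  push_cast at hA hA' hB hD hn1
  rcases hD with h | h
  · exfalso
    obtain ⟨h5, h6, h7⟩ := h
    subst h7
    unfold fcol at hn1
    simp only at hn1
    omega
  · obtain ⟨x, hx1, hx2, hx3⟩ := h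
    refine ⟨x, _, hx1, hx2, ?_, hx3⟩
    have hd : d = 0 ∨ d = 1 ∨ d = 2 ∨ d = 3 := by fin_cases d <;> simp
    unfold fcol at hn1
    unfold E2.yv E2.ph
    rcases hd with rfl | rfl | rfl | rfl
    · simp only at hn1 ⊢
      have h9 : u + (↑k + 1) - (v - ↑k) ≠ 0 := fun h => by
        rcases hB h with h' | h' <;> exact absurd h' (by decide)
      push_cast
      omega
    · simp only at hn1 ⊢
      have h9 : u + (↑k + 1) - (v - ↑k) ≠ 0 := fun h => by
        rcases hB h with h' | h' <;> exact absurd h' (by decide)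
      push_cast
      omega
    · simp only at hn1 ⊢
      push_cast
      omega
    · simp only at hn1 ⊢
      push_cast
      omega

theorem exit_of (k b : ℕ) (hb : Odd b) (ω : Conf) (h : ω ∈ ER (2 * k + 1) b ∪ EL (2 * k + 1) b) :
    tr k ω ∈ RightFirst (2 * k + 1) b ∪ LeftFirst (2 * k + 1) b := by
  classical
  have hK : 2 * (((2 * k + 1 + b + 2) / 2 : ℕ) : ℤ) = ((2 * k + 1 : ℕ) : ℤ) + b + 2 := by
    obtain ⟨l, rfl⟩ := hb
    omega
  have hex : ∃ n, hitL (walk (2 * k + 1) b ω n) ∨ hitR (2 * k + 1) b (walk (2 * k + 1) b ω n) := by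
    rcases h with ⟨n, h1, -⟩ | ⟨n, h1, -⟩
    · exact ⟨n, Or.inr h1⟩
    · exact ⟨n, Or.inl h1⟩
  set N := Nat.find hex with hN
  have hN1 := Nat.find_spec hex
  have hN2 : ∀ m < N, ¬ (hitL (walk (2 * k + 1) b ω m) ∨
    hitR (2 * k + 1) b (walk (2 * k + 1) b ω m)) := fun m hm => Nat.find_min hex hm
  obtain ⟨h3, -⟩ := walk_eq k b _ hK ω N (fun m hm h => hN2 m hm (Or.inl h))
    (fun m hm h => hN2 m hm (Or.inr h))
  rw [← hN, h3] at hN1
  have hex2 : ∃ n, (b : ℤ) + 1 ≤ vcol (path (tr k ω) n) ∨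
      fcol (path (tr k ω) n) ≤ -((2 * k + 1 : ℕ) : ℤ) := by
    refine ⟨N, ?_⟩
    rcases hN1 with h | h
    · exact Or.inr (le_of_eq (hitL_fcol k _ h))
    · rw [hitR_vcol] at h
      exact Or.inl (by omega)
  set n := Nat.find hex2 with hn
  have hn1 := Nat.find_spec hex2
  rw [← hn] at hn1
  have hn2 : ∀ m < n, ¬ ((b : ℤ) + 1 ≤ vcol (path (tr k ω) m) ∨
      fcol (path (tr k ω) m) ≤ -((2 * k + 1 : ℕ) : ℤ)) := fun m hm => Nat.find_min hex2 hm
  by_cases hc : fcol (path (tr k ω) n) ≤ -((2 * k + 1 : ℕ) : ℤ)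
  · right
    refine ⟨n, hc, fun m hm => ?_⟩
    rcases Nat.lt_or_eq_of_le hm with h | h
    · by_contra h4
      exact hn2 m h (Or.inl (by omega))
    · rw [h]
      have h5 := fcol_vcol (path (tr k ω) n)
      push_cast at hc
      omega
  · left
    refine ⟨n, ?_, fun m hm => ?_⟩
    · rcases hn1 with h | h
      · exact h
      · exact absurd h hc
    · rcases Nat.lt_or_eq_of_le hm with h | h
      · by_contra h4
        exact hn2 m h (Or.inr (by omega))
      · rw [h]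
        omega

end Pool.Agent.H984Q
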