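import Pool.Agent.H492E.Defs

/-!
# The exploration path of critical bond percolation in the plane slit along a half line

ONE path, started at the tip of the slit; the left bank of the slit is wired, the right bank is
free (wired in the dual). Plane form of the exit law of the exploration path (on top of
helper492's `H492E` and helper31's exact Cardy formula in slit strips).
-/

namespace Pool.Agent.H984Q

open Pool.Agent.H988R2.Perc hiding X
open Pool.Agent.H31C Pool.Agent.H492E Finset MeasureTheory

/-- the left bank of the slit: the vertices `(k,k)`, `k ≥ 0` -/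
def Bank0 (x : ℤ × ℤ) : Prop := x.1 = x.2 ∧ 0 ≤ x.1

/-- the slit cuts the edges between the lines `u - v ≤ 0` and `u - v > 0` both ends of which
satisfy `u + v ≥ 0`, i.e. the edges `(k,k)-(k+1,k)` and `(k+1,k)-(k+1,k+1)`, `k ≥ 0` -/
def Cut (x y : ℤ × ℤ) : Prop :=
  0 ≤ x.1 + x.2 ∧ 0 ≤ y.1 + y.2 ∧
    ((x.1 - x.2 ≤ 0 ∧ 0 < y.1 - y.2) ∨ (y.1 - y.2 ≤ 0 ∧ 0 < x.1 - x.2))

open Classical in
/-- One step of the exploration path. The path stands at the vertex `s.1` (on its right) and looks
at the edge in direction `s.2`: if this edge is open and not cut, the path goes along it and turns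
counterclockwise, otherwise it turns clockwise. At a vertex of the wired left bank, when it looks at
the slit (direction `0`), it goes to the next vertex of the bank. -/
noncomputable def pstep (ω : Conf) (s : (ℤ × ℤ) × Fin 4) : (ℤ × ℤ) × Fin 4 :=
  if Bank0 s.1 ∧ s.2 = 0 then (s.1 + (1, 1), 2)
  else if OpenAdj ω s.1 (s.1 + vec s.2) ∧ ¬ Cut s.1 (s.1 + vec s.2) then
    (s.1 + vec s.2, s.2 + 1)
  else (s.1, s.2 + 3)

/-- the exploration path: it starts at the tip `(0,0)` and looks down -/
noncomputable def path (ω : Conf) (n : ℕ) : (ℤ × ℤ) × Fin 4 := (pstep ω)^[n] ((0, 0), 3)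

/-- `u - v` for the vertex on the right of the path -/
def vcol (s : (ℤ × ℤ) × Fin 4) : ℤ := s.1.1 - s.1.2

/-- `u - v` for the face (dual vertex, centre of the face) on the left of the path:
`s.1 + (1/2,1/2)`, `s.1 + (-1/2,1/2)`, `s.1 + (-1/2,-1/2)`, `s.1 + (1/2,-1/2)` for the directions
`0, 1, 2, 3` -/
def fcol (s : (ℤ × ℤ) × Fin 4) : ℤ :=
  match s.2 with
  | 0 => s.1.1 - s.1.2
  | 1 => s.1.1 - s.1.2 - 1
  | 2 => s.1.1 - s.1.2
  | 3 => s.1.1 - s.1.2 + 1

/-- the path reaches (with its right side) the line `u - v = b+1` before it reaches (with its left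
side) the line `u - v = -a` -/
def RightFirst (a b : ℕ) : Set Conf :=
  {ω | ∃ n, (b : ℤ) + 1 ≤ vcol (path ω n) ∧ ∀ m ≤ n, -(a : ℤ) < fcol (path ω m)}

/-- the path reaches (with its left side) the line `u - v = -a` before it reaches (with its right
side) the line `u - v = b+1` -/
def LeftFirst (a b : ℕ) : Set Conf :=
  {ω | ∃ n, fcol (path ω n) ≤ -(a : ℤ) ∧ ∀ m ≤ n, vcol (path ω m) < (b : ℤ) + 1}

end Pool.Agent.H984Q
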