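import Pool.Agent.H984Q.Bridge
import Pool.Agent.H492E.E3
import Pool.Agent.H492E.E3c
import Pool.Agent.H492E.E5
import Pool.Agent.H492E.E6
import Pool.Agent.H31C.Stubs

/-! The exact exit law of the exploration path in the slit plane. -/

namespace Pool.Agent.H984Q

open Pool.Agent.H988R2.Perc hiding X
open Pool.Agent.H31C Pool.Agent.H492E Finset MeasureTheory Filter

/-- the translation of the edges -/
def eT (k : ℤ) : Edge ≃ Edge where
  toFun := fun e => (e.1 - (k + 1), e.2.1 + k, e.2.2)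
  invFun := fun e => (e.1 + (k + 1), e.2.1 - k, e.2.2)
  left_inv := by
    rintro ⟨u, v, c⟩
    show (u - (k + 1) + (k + 1), v + k - k, c) = (u, v, c)
    rw [show u - (k + 1) + (k + 1) = u by ring, show v + k - k = v by ring]
  right_inv := by
    rintro ⟨u, v, c⟩
    show (u + (k + 1) - (k + 1), v - k + k, c) = (u, v, c)
    rw [show u + (k + 1) - (k + 1) = u by ring, show v - k + k = v by ring]

theorem tr_eq (k : ℤ) : tr k = MeasurableEquiv.piCongrLeft (fun _ : Edge => Bool) (eT k) := by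
  funext ω i
  obtain ⟨j, rfl⟩ := (eT k).surjective i
  rw [MeasurableEquiv.coe_piCongrLeft, Equiv.piCongrLeft_apply_apply]
  show ω ((eT k).symm (eT k j)) = ω j
  rw [Equiv.symm_apply_apply]

theorem tr_map (k : ℤ) :
    perc.map (MeasurableEquiv.piCongrLeft (fun _ : Edge => Bool) (eT k)) = perc := by
  unfold perc
  exact Measure.infinitePi_map_piCongrLeft (fun _ : Edge => coin) (eT k)

theorem perc_tr (k : ℤ) (A : Set Conf) : perc {ω | tr k ω ∈ A} = perc A := by
  have h : perc.map (MeasurableEquiv.piCongrLeft (fun _ : Edge => Bool) (eT k)) A =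
      perc ((MeasurableEquiv.piCongrLeft (fun _ : Edge => Bool) (eT k)) ⁻¹' A) :=
    MeasurableEquiv.map_apply _ _
  rw [tr_map, ← tr_eq] at h
  exact h.symm

/-- the exit law; `hX` is the exact discrete Cardy formula -/
theorem exact_all (hX : S_Exact) (a b : ℕ) (ha : Odd a) (hb : Odd b) :
    perc.real (RightFirst a b) = ∑ k ∈ range (a+1), bw (a+b+1) k ∧
    perc.real (LeftFirst a b) = ∑ k ∈ range (b+1), bw (a+b+1) k ∧
    ∀ᵐ ω ∂perc, ω ∈ RightFirst a b ∪ LeftFirst a b := by
  have hsum := E6_sum a b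
  have hx1 := hX a b ha hb
  have hx2 := hX b a hb ha
  obtain ⟨k, rfl⟩ := ha
  have r1 : perc.real (RightFirst (2 * k + 1) b) =
      perc.real {ω | tr k ω ∈ RightFirst (2 * k + 1) b} := by
    rw [measureReal_def, measureReal_def, perc_tr]
  have l1 : perc.real (LeftFirst (2 * k + 1) b) =
      perc.real {ω | tr k ω ∈ LeftFirst (2 * k + 1) b} := by
    rw [measureReal_def, measureReal_def, perc_tr]
  have u1 : perc.real (RightFirst (2 * k + 1) b) ≤
      ∑ j ∈ range (2 * k + 1 + 1), bw (2 * k + 1 + b + 1) j := by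
    rw [r1, ← hx1]
    exact measureReal_mono (fun ω hω => right_sub k b hb ω hω)
  have u2 : perc.real (LeftFirst (2 * k + 1) b) ≤
      ∑ j ∈ range (b + 1), bw (b + (2 * k + 1) + 1) j := by
    rw [l1, ← hx2]
    have h1 : perc.real {ω | mir (((2 * k + 1 + b + 2) / 2 : ℕ) : ℤ) ω ∈ Cross b (2 * k + 1)} =
        perc.real (Cross b (2 * k + 1)) := by
      rw [measureReal_def, measureReal_def]
      have h := Measure.map_apply (μ := perc) (E3_meas (((2 * k + 1 + b + 2) / 2 : ℕ) : ℤ))
        (E3_cross b (2 * k + 1))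
      rw [E3_map] at h
      rw [h]; rfl
    rw [← h1]
    exact measureReal_mono (fun ω hω => left_sub k b hb ω hω)
  have full' : ∀ᵐ ω ∂perc, tr k ω ∈ RightFirst (2 * k + 1) b ∪ LeftFirst (2 * k + 1) b := by
    filter_upwards [E5_barr (2 * k + 1) b] with ω hω
    exact exit_of k b hb ω
      (E4_stop_of (2 * k + 1) b ⟨k, rfl⟩ ω (E4_conf (2 * k + 1) b ⟨k, rfl⟩ hb ω hω))
  have full : ∀ᵐ ω ∂perc, ω ∈ RightFirst (2 * k + 1) b ∪ LeftFirst (2 * k + 1) b := by
    rw [ae_iff]
    rw [ae_iff] at full'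
    have h := perc_tr k {ω | ¬ ω ∈ RightFirst (2 * k + 1) b ∪ LeftFirst (2 * k + 1) b}
    rw [← h]
    exact full'
  have tot : 1 ≤ perc.real (RightFirst (2 * k + 1) b) + perc.real (LeftFirst (2 * k + 1) b) := by
    have h2 : perc.real (RightFirst (2 * k + 1) b ∪ LeftFirst (2 * k + 1) b) = 1 := by
      have h3 : (RightFirst (2 * k + 1) b ∪ LeftFirst (2 * k + 1) b : Set Conf) =ᵐ[perc] Set.univ :=
        eventuallyEq_univ.2 full
      rw [measureReal_congr h3]
      exact probReal_univ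
    rw [← h2]
    exact measureReal_union_le _ _
  have e : b + (2 * k + 1) + 1 = 2 * k + 1 + b + 1 := by omega
  rw [e] at hsum u2
  refine ⟨by linarith, by linarith, full⟩

theorem mono_right (a b a' b' : ℕ) (h : a ≤ a') (h' : b' ≤ b) :
    RightFirst a b ⊆ RightFirst a' b' := by
  rintro ω ⟨n, h1, h2⟩
  refine ⟨n, by omega, fun m hm => ?_⟩
  have h3 := h2 m hm
  omega

end Pool.Agent.H984Q
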