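import Pool.Agent.H984Q.Meas
import Pool.Agent.H984P.LIM

/-! The limit law (the sandwich is helper177's `H984P.LIM`). -/

namespace Pool.Agent.H984Q

open Pool.Agent.H988R2.Perc hiding X
open Pool.Agent.H31C Pool.Agent.H492E Finset MeasureTheory Filter Topology
open Pool.Agent.H984P.LIMAux

theorem lim_right (hX : S_Exact) (h3 : S_D) (a b : ℕ → ℕ) (x : ℝ) (hx0 : 0 < x) (hx1 : x < 1)
    (hs : Tendsto (fun n => (a n : ℝ) + b n) atTop atTop)
    (hr : Tendsto (fun n => (a n : ℝ) / (a n + b n)) atTop (𝓝 x)) :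
    Tendsto (fun n => perc.real (RightFirst (a n) (b n))) atTop
      (𝓝 ((∫ t in (0:ℝ)..x, (t*(1-t))^(-(2:ℝ)/3)) / ∫ t in (0:ℝ)..1, (t*(1-t))^(-(2:ℝ)/3))) := by
  have hx : x ∈ Set.Icc (0 : ℝ) 1 := ⟨hx0.le, hx1.le⟩
  have ha : ∀ᶠ n in atTop, 1 ≤ a n := by
    filter_upwards [hr.eventually (lt_mem_nhds hx0)] with n hn
    by_contra hcon
    have : a n = 0 := by omega
    rw [this] at hn
    simp at hn
  have hb : ∀ᶠ n in atTop, 1 ≤ b n := by
    filter_upwards [hr.eventually (gt_mem_nhds hx1), ha] with n hn han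
    by_contra hcon
    have h0 : b n = 0 := by omega
    rw [h0] at hn
    have h4 : (0 : ℝ) < a n := by exact_mod_cast han
    simp only [Nat.cast_zero, add_zero] at hn
    rw [div_self h4.ne'] at hn
    exact lt_irrefl _ hn
  obtain ⟨s1, r1⟩ := ratio hs hr (fun n => lo_abs (a n)) (fun n => up_abs (b n))
  obtain ⟨s2, r2⟩ := ratio hs hr (fun n => up_abs (a n)) (fun n => lo_abs (b n))
  have l1 := h3 (fun n => lo (a n)) (fun n => up (b n)) x hx s1 r1
  have l2 := h3 (fun n => up (a n)) (fun n => lo (b n)) x hx s2 r2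
  refine tendsto_of_tendsto_of_tendsto_of_le_of_le' l1 l2 ?_ ?_
  · filter_upwards [ha] with n hn
    rw [← (exact_all hX (lo (a n)) (up (b n)) (lo_odd _) (up_odd _)).1]
    exact measureReal_mono (mono_right _ _ _ _ (lo_le hn) (le_up _))
  · filter_upwards [hb] with n hn
    rw [← (exact_all hX (up (a n)) (lo (b n)) (up_odd _) (lo_odd _)).1]
    exact measureReal_mono (mono_right _ _ _ _ (le_up _) (lo_le hn))

theorem mesh {α β : ℝ} (hα : 0 < α) (hβ : 0 < β) (δ : ℕ → ℝ) (a b : ℕ → ℕ)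
    (hδ : ∀ n, 0 < δ n) (hδ0 : Tendsto δ atTop (𝓝 0))
    (ha : Tendsto (fun n => δ n * a n) atTop (𝓝 α))
    (hb : Tendsto (fun n => δ n * b n) atTop (𝓝 β)) :
    Tendsto (fun n => (a n : ℝ) + b n) atTop atTop ∧
      Tendsto (fun n => (a n : ℝ) / (a n + b n)) atTop (𝓝 (α / (α + β))) := by
  have hsum : Tendsto (fun n => δ n * (a n + b n)) atTop (𝓝 (α + β)) := by
    have := ha.add hb
    refine this.congr (fun n => ?_)
    ring
  constructor
  · have hinv : Tendsto (fun n => (δ n)⁻¹) atTop atTop := by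
      have h : Tendsto δ atTop (𝓝[>] 0) :=
        tendsto_nhdsWithin_iff.2 ⟨hδ0, Eventually.of_forall fun n => hδ n⟩
      exact tendsto_inv_nhdsGT_zero.comp h
    have h := hinv.atTop_mul_pos (show 0 < α + β by positivity) hsum
    refine h.congr (fun n => ?_)
    have := hδ n
    field_simp
  · have h := ha.div hsum (by positivity)
    refine h.congr (fun n => ?_)
    have h1 := (hδ n).ne'
    simp only [Pi.div_apply]
    rw [mul_div_mul_left _ _ h1]

end Pool.Agent.H984Q
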