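import Pool.Agent.H984Q.Exact

/-! Measurability, general parities, and the limit law. -/

namespace Pool.Agent.H984Q

open Pool.Agent.H988R2.Perc hiding X
open Pool.Agent.H31C Pool.Agent.H492E Finset MeasureTheory Filter Topology

theorem m_edge (e : Edge) : MeasurableSet {ω : Conf | ω e = true} := by
  have h : Measurable (fun ω : Conf => ω e) := measurable_pi_apply e
  exact h (measurableSet_singleton true)

theorem m_open (x y : ℤ × ℤ) : MeasurableSet {ω : Conf | OpenAdj ω x y} := by
  have h1 : MeasurableSet {ω : Conf | y = (x.1 + 1, x.2) ∧ ω (x.1, x.2, false) = true} :=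
    (MeasurableSet.const _).inter (m_edge _)
  have h2 : MeasurableSet {ω : Conf | x = (y.1 + 1, y.2) ∧ ω (y.1, y.2, false) = true} :=
    (MeasurableSet.const _).inter (m_edge _)
  have h3 : MeasurableSet {ω : Conf | y = (x.1, x.2 + 1) ∧ ω (x.1, x.2, true) = true} :=
    (MeasurableSet.const _).inter (m_edge _)
  have h4 : MeasurableSet {ω : Conf | x = (y.1, y.2 + 1) ∧ ω (y.1, y.2, true) = true} :=
    (MeasurableSet.const _).inter (m_edge _)
  exact h1.union (h2.union (h3.union h4))

theorem m_adj (x y : ℤ × ℤ) : MeasurableSet {ω : Conf | OpenAdj ω x y ∧ ¬ Cut x y} :=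
  (m_open x y).inter (MeasurableSet.const _)

theorem m_step (s t : (ℤ × ℤ) × Fin 4) : MeasurableSet {ω : Conf | pstep ω s = t} := by
  by_cases h : Bank0 s.1 ∧ s.2 = 0
  · have : {ω : Conf | pstep ω s = t} = {_ω : Conf | (s.1 + (1, 1), (2 : Fin 4)) = t} := by
      ext ω
      simp only [Set.mem_ofPred_eq, pstep, if_pos h]
    rw [this]
    exact MeasurableSet.const _
  · have : {ω : Conf | pstep ω s = t} =
        ({ω : Conf | OpenAdj ω s.1 (s.1 + vec s.2) ∧ ¬ Cut s.1 (s.1 + vec s.2)} ∩
          {_ω : Conf | (s.1 + vec s.2, s.2 + 1) = t}) ∪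
        ({ω : Conf | OpenAdj ω s.1 (s.1 + vec s.2) ∧ ¬ Cut s.1 (s.1 + vec s.2)}ᶜ ∩
          {_ω : Conf | (s.1, s.2 + 3) = t}) := by
      ext ω
      simp only [Set.mem_ofPred_eq, pstep, if_neg h, Set.mem_union, Set.mem_inter_iff,
        Set.mem_compl_iff]
      by_cases h' : OpenAdj ω s.1 (s.1 + vec s.2) ∧ ¬ Cut s.1 (s.1 + vec s.2)
      · rw [if_pos h']
        constructor
        · intro h2; exact Or.inl ⟨h', h2⟩
        · rintro (h2 | h2)
          · exact h2.2
          · exact absurd h' h2.1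
      · rw [if_neg h']
        constructor
        · intro h2; exact Or.inr ⟨h', h2⟩
        · rintro (h2 | h2)
          · exact absurd h2.1 h'
          · exact h2.2
    rw [this]
    exact ((m_adj _ _).inter (MeasurableSet.const _)).union
      ((m_adj _ _).compl.inter (MeasurableSet.const _))

theorem m_path (n : ℕ) : Measurable (fun ω : Conf => path ω n) := by
  induction n with
  | zero =>
    have : (fun ω : Conf => path ω 0) = fun _ => ((0, 0), 3) := by
      funext ω
      rfl
    rw [this]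
    exact measurable_const
  | succ n ih =>
    apply measurable_to_countable'
    intro t
    have : (fun ω : Conf => path ω (n+1)) ⁻¹' {t} =
        ⋃ s : (ℤ × ℤ) × Fin 4, ((fun ω : Conf => path ω n) ⁻¹' {s}) ∩
          {ω : Conf | pstep ω s = t} := by
      ext ω
      simp only [Set.mem_preimage, Set.mem_singleton_iff, Set.mem_iUnion, Set.mem_inter_iff,
        Set.mem_ofPred_eq]
      rw [path_succ]
      constructor
      · intro h
        exact ⟨_, rfl, h⟩
      · rintro ⟨s, hs, h⟩
        rw [hs]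
        exact h
    rw [this]
    exact MeasurableSet.iUnion fun s => (ih (measurableSet_singleton s)).inter (m_step _ _)

theorem m_events (a b : ℕ) : MeasurableSet (RightFirst a b) ∧ MeasurableSet (LeftFirst a b) := by
  have key : ∀ (P : (ℤ × ℤ) × Fin 4 → Prop) (n : ℕ),
      MeasurableSet {ω : Conf | P (path ω n)} := by
    intro P n
    exact (m_path n) (MeasurableSet.of_discrete (s := {s | P s}))
  constructor
  · have : RightFirst a b = ⋃ n : ℕ, ({ω : Conf | (b : ℤ) + 1 ≤ vcol (path ω n)} ∩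
        ⋂ m : ℕ, ⋂ _ : m ≤ n, {ω : Conf | -(a : ℤ) < fcol (path ω m)}) := by
      ext ω
      simp only [RightFirst, Set.mem_ofPred_eq, Set.mem_iUnion, Set.mem_inter_iff, Set.mem_iInter]
    rw [this]
    exact MeasurableSet.iUnion fun n => (key (fun s => (b : ℤ) + 1 ≤ vcol s) n).inter
      (MeasurableSet.iInter fun m => MeasurableSet.iInter fun _ =>
        key (fun s => -(a : ℤ) < fcol s) m)
  · have : LeftFirst a b = ⋃ n : ℕ, ({ω : Conf | fcol (path ω n) ≤ -(a : ℤ)} ∩
        ⋂ m : ℕ, ⋂ _ : m ≤ n, {ω : Conf | vcol (path ω m) < (b : ℤ) + 1}) := by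
      ext ω
      simp only [LeftFirst, Set.mem_ofPred_eq, Set.mem_iUnion, Set.mem_inter_iff, Set.mem_iInter]
    rw [this]
    exact MeasurableSet.iUnion fun n => (key (fun s => fcol s ≤ -(a : ℤ)) n).inter
      (MeasurableSet.iInter fun m => MeasurableSet.iInter fun _ =>
        key (fun s => vcol s < (b : ℤ) + 1) m)

theorem disj (a b : ℕ) : Disjoint (RightFirst a b) (LeftFirst a b) := by
  rw [Set.disjoint_left]
  rintro ω ⟨n, h1, h2⟩ ⟨n', h3, h4⟩
  rcases le_total n n' with h | h
  · have := h4 n h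
    omega
  · have := h2 n' h
    omega

/-- some hit implies one of the two events -/
theorem one_of (a b : ℕ) (hab : 1 ≤ a + b) (ω : Conf)
    (hex : ∃ n, (b : ℤ) + 1 ≤ vcol (path ω n) ∨ fcol (path ω n) ≤ -(a : ℤ)) :
    ω ∈ RightFirst a b ∪ LeftFirst a b := by
  classical
  set n := Nat.find hex with hn
  have hn1 := Nat.find_spec hex
  rw [← hn] at hn1
  have hn2 : ∀ m < n, ¬ ((b : ℤ) + 1 ≤ vcol (path ω m) ∨
      fcol (path ω m) ≤ -(a : ℤ)) := fun m hm => Nat.find_min hex hm
  by_cases hc : fcol (path ω n) ≤ -(a : ℤ)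
  · right
    refine ⟨n, hc, fun m hm => ?_⟩
    rcases Nat.lt_or_eq_of_le hm with h | h
    · by_contra h4
      exact hn2 m h (Or.inl (by omega))
    · rw [h]
      have h5 := fcol_vcol (path ω n)
      omega
  · left
    refine ⟨n, ?_, fun m hm => ?_⟩
    · rcases hn1 with h | h
      · exact h
      · exact absurd h hc
    · rcases Nat.lt_or_eq_of_le hm with h | h
      · by_contra h4
        exact hn2 m h (Or.inr (by omega))
      · rw [h]
        omega

theorem ae_exit (hX : S_Exact) (a b : ℕ) (hab : 1 ≤ a + b) :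
    ∀ᵐ ω ∂perc, ω ∈ RightFirst a b ∪ LeftFirst a b := by
  have h := (exact_all hX (2 * a + 1) (2 * b + 1) ⟨a, rfl⟩ ⟨b, rfl⟩).2.2
  filter_upwards [h] with ω hω
  apply one_of a b hab
  rcases hω with ⟨n, h1, -⟩ | ⟨n, h1, -⟩
  · exact ⟨n, Or.inl (by push_cast at h1; omega)⟩
  · exact ⟨n, Or.inr (by push_cast at h1; omega)⟩

theorem sum_one (hX : S_Exact) (a b : ℕ) (hab : 1 ≤ a + b) :
    perc.real (RightFirst a b) + perc.real (LeftFirst a b) = 1 := by
  rw [← measureReal_union (disj a b) (m_events a b).2]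
  have h3 : (RightFirst a b ∪ LeftFirst a b : Set Conf) =ᵐ[perc] Set.univ :=
    eventuallyEq_univ.2 (ae_exit hX a b hab)
  rw [measureReal_congr h3]
  exact probReal_univ

end Pool.Agent.H984Q
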