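import Pool.Agent.H984Q.Meas
import Pool.Agent.H980R4.Rate4

/-! Rate of convergence of the exit probability of the exploration path, all parities
(from helper980's rate for the beta-binomial distribution function). -/

namespace Pool.Agent.H984Q

open Finset MeasureTheory Pool.Agent.H757R2.CardyLimit Pool.Agent.H757R2.CardySD Pool.Agent.H31C
open Pool.Agent.H863R4 Pool.Agent.H980R4.Rate
open Pool.Agent.H988R2.Perc hiding X

theorem right_rate (hE : S_Exact) {a b : ℕ} (ha : 1 ≤ a) (hb : 1 ≤ b) :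
    |perc.real (RightFirst a b) - cardyF ((a:ℝ) / (a + b))| ≤
      60 * ((min a b : ℕ) : ℝ) ^ (-(2/3) : ℝ) * ((a:ℝ) + b) ^ (-(1/3) : ℝ) := by
  have pa : (1:ℝ) ≤ a := by exact_mod_cast ha
  have pb : (1:ℝ) ≤ b := by exact_mod_cast hb
  have hs : (0:ℝ) < (a:ℝ) + b := by linarith
  have key : ∀ a' b' : ℕ, Odd a' → Odd b' → |(a' : ℝ) - a| ≤ 1 → |(b' : ℝ) - b| ≤ 1 →
      a + b ≤ a' + b' + 1 → |perc.real (RightFirst a' b') - cardyF ((a:ℝ) / (a + b))| ≤
      60 * ((min a b : ℕ) : ℝ) ^ (-(2/3) : ℝ) * ((a:ℝ) + b) ^ (-(1/3) : ℝ) := by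
    intro a' b' ha' hb' h1 h2 h3
    have k1 := cross_rate_odd hE ha' hb'
    have k2 := F_near ha hb ha'.pos hb'.pos h1 h2
    rw [hE a' b' ha' hb', ← (exact_all hE a' b' ha' hb').1, cardyF_eq] at k1
    rw [cardyF_eq]
    have pa' : (1:ℝ) ≤ a' := by exact_mod_cast ha'.pos
    have pb' : (1:ℝ) ≤ b' := by exact_mod_cast hb'.pos
    rw [abs_le] at h1 h2
    have h3' : (a:ℝ) + b ≤ a' + b' + 1 := by exact_mod_cast h3
    set n : ℝ := ((min a b : ℕ) : ℝ) with hn
    set n' : ℝ := ((min a' b' : ℕ) : ℝ) with hn'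
    have hn1 : 1 ≤ n := by rw [hn]; exact_mod_cast le_min ha hb
    have hna : n ≤ a := by rw [hn]; exact_mod_cast min_le_left a b
    have hnb : n ≤ b := by rw [hn]; exact_mod_cast min_le_right a b
    have hnn : n / 2 ≤ n' := by
      rw [hn', Nat.cast_min, le_min_iff]
      constructor <;> linarith
    have t1 : n' ^ (-(2/3) : ℝ) ≤ (49/30) * n ^ (-(2/3) : ℝ) := by
      refine (rp_anti (by linarith) hnn).trans ?_
      rw [Real.div_rpow (by linarith) (by norm_num), Real.rpow_neg (by norm_num : (0:ℝ) ≤ 2),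
        div_inv_eq_mul, mul_comm]
      apply mul_le_mul_of_nonneg_right _ (by positivity)
      have e : (2:ℝ) ^ (2/3 : ℝ) = ((2:ℝ) ^ (2:ℝ)) ^ (1/3 : ℝ) := by
        rw [← Real.rpow_mul (by norm_num)]; norm_num
      have e2 : (49/30:ℝ) = ((49/30:ℝ) ^ (3:ℝ)) ^ (1/3 : ℝ) := by
        rw [← Real.rpow_mul (by norm_num)]; norm_num
      rw [e, e2]
      apply Real.rpow_le_rpow (by positivity) _ (by norm_num)
      norm_num
    have t2 : ((a':ℝ) + b' + 1) ^ (-(1/3) : ℝ) ≤ ((a:ℝ) + b) ^ (-(1/3) : ℝ) :=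
      Real.rpow_le_rpow_of_nonpos hs h3' (by norm_num)
    have t3 : 30 * n' ^ (-(2/3) : ℝ) * ((a':ℝ) + b' + 1) ^ (-(1/3) : ℝ) ≤
        49 * n ^ (-(2/3) : ℝ) * ((a:ℝ) + b) ^ (-(1/3) : ℝ) :=
      mul_le_mul (by linarith) t2 (by positivity) (by positivity)
    calc |perc.real (RightFirst a' b') - F ((a:ℝ) / (a + b))|
        ≤ |perc.real (RightFirst a' b') - F ((a':ℝ) / (a' + b'))| +
          |F ((a':ℝ) / (a' + b')) - F ((a:ℝ) / (a + b))| := abs_sub_le _ _ _
      _ ≤ _ := by linarith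
  have l1 : perc.real (RightFirst (od a) (ou b)) ≤ perc.real (RightFirst a b) :=
    measureReal_mono (mono_right _ _ _ _ (od_le (by omega)) (le_ou b))
  have l2 : perc.real (RightFirst a b) ≤ perc.real (RightFirst (ou a) (od b)) :=
    measureReal_mono (mono_right _ _ _ _ (le_ou a) (od_le (by omega)))
  have k1 := key (od a) (ou b) (od_odd a) (ou_odd b) (od_dist a) (ou_dist b) (by
    have := le_ou b
    have : a ≤ od a + 1 := by unfold od; split_ifs <;> omega
    omega)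
  have k2 := key (ou a) (od b) (ou_odd a) (od_odd b) (ou_dist a) (od_dist b) (by
    have := le_ou a
    have : b ≤ od b + 1 := by unfold od; split_ifs <;> omega
    omega)
  rw [abs_le] at k1 k2 ⊢
  constructor <;> linarith [k1.1, k1.2, k2.1, k2.2]

end Pool.Agent.H984Q
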